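import Mathlib

set_option autoImplicit false

namespace Pool.Agent.Results.MP_0c20fd_an.Counter

section defs
variable {𝕜 : Type} [RCLike 𝕜] {X : Type} [NormedAddCommGroup X] [NormedSpace 𝕜 X]

/-- weak l2 norm of a finite family -/
noncomputable def weak2 (𝕜 : Type) [RCLike 𝕜] {X : Type} [NormedAddCommGroup X] [NormedSpace 𝕜 X]
    {m : ℕ} (x : Fin m → X) : ℝ :=
  sSup {s : ℝ | ∃ f : X →L[𝕜] 𝕜, ‖f‖ ≤ 1 ∧ s = √(∑ i, ‖f (x i)‖ ^ 2)}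

/-- the 2-summing norm -/
noncomputable def pi2 (T : X →L[𝕜] X) : ℝ :=
  sInf {C : ℝ | 0 ≤ C ∧ ∀ (m : ℕ) (x : Fin m → X), √(∑ i, ‖T (x i)‖ ^ 2) ≤ C * weak2 𝕜 x}

/-- smoothness of the 2-summing norm at T: exactly one norming functional of dual norm one -/
def SmoothAtOp (T : X →L[𝕜] X) : Prop :=
  ∃! φ : (X →L[𝕜] X) →ₗ[𝕜] 𝕜,
    IsLUB {s : ℝ | ∃ R : X →L[𝕜] X, pi2 R ≤ 1 ∧ s = ‖φ R‖} 1 ∧ φ T = (pi2 T : 𝕜)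

lemma bdd {m : ℕ} (x : Fin m → X) :
    BddAbove {s : ℝ | ∃ f : X →L[𝕜] 𝕜, ‖f‖ ≤ 1 ∧ s = √(∑ i, ‖f (x i)‖ ^ 2)} := by
  refine ⟨√(∑ i, ‖x i‖ ^ 2), ?_⟩
  rintro _ ⟨f, hf, rfl⟩
  refine Real.sqrt_le_sqrt (Finset.sum_le_sum fun i _ => pow_le_pow_left₀ (norm_nonneg _) ?_ 2)
  exact (f.le_opNorm _).trans (by nlinarith [norm_nonneg (x i)])

lemma weak_one (x : X) : weak2 𝕜 (fun _ : Fin 1 => x) ≤ ‖x‖ := by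
  refine csSup_le ⟨_, 0, by simp, rfl⟩ ?_
  rintro _ ⟨f, hf, rfl⟩
  simp only [Finset.univ_unique, Finset.sum_singleton, norm_nonneg, Real.sqrt_sq]
  exact (f.le_opNorm _).trans (by nlinarith [norm_nonneg x])

end defs

variable (𝕜 : Type) [RCLike 𝕜]

abbrev V := Fin 2 → 𝕜

lemma mem_of {R : V 𝕜 →L[𝕜] V 𝕜} {C : ℝ} (hC : 0 ≤ C)
    (h : ∀ x, ‖R x‖ ^ 2 ≤ C ^ 2 / 2 * (‖x 0‖ ^ 2 + ‖x 1‖ ^ 2)) (m : ℕ) (x : Fin m → V 𝕜) :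
    √(∑ i, ‖R (x i)‖ ^ 2) ≤ C * weak2 𝕜 x := by
  have key : ∀ j : Fin 2, ∑ i, ‖x i j‖ ^ 2 ≤ weak2 𝕜 x ^ 2 ∧ 0 ≤ weak2 𝕜 x := by
    intro j
    have h1 : √(∑ i, ‖x i j‖ ^ 2) ≤ weak2 𝕜 x := le_csSup (bdd x)
      ⟨ContinuousLinearMap.proj j, ContinuousLinearMap.opNorm_le_bound _ zero_le_one
        fun y => by simpa using norm_le_pi_norm y j, rfl⟩
    have h2 := Real.sqrt_nonneg (∑ i, ‖x i j‖ ^ 2)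
    have h3 := Real.sq_sqrt (show 0 ≤ ∑ i, ‖x i j‖ ^ 2 by positivity)
    exact ⟨by nlinarith, by linarith⟩
  refine Real.sqrt_le_iff.mpr ⟨mul_nonneg hC (key 0).2, ?_⟩
  refine (Finset.sum_le_sum fun i _ => h (x i)).trans ?_
  rw [← Finset.mul_sum, Finset.sum_add_distrib]
  nlinarith [(key 0).1, (key 1).1, sq_nonneg C]

lemma nsq (x : V 𝕜) : ‖x‖ ^ 2 ≤ ‖x 0‖ ^ 2 + ‖x 1‖ ^ 2 := by
  have : ‖x‖ ≤ √(‖x 0‖ ^ 2 + ‖x 1‖ ^ 2) := by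
    refine (pi_norm_le_iff_of_nonneg (Real.sqrt_nonneg _)).mpr fun j => ?_
    apply Real.le_sqrt_of_sq_le
    fin_cases j <;> simp
  have h3 := Real.sq_sqrt (show 0 ≤ ‖x 0‖ ^ 2 + ‖x 1‖ ^ 2 by positivity)
  nlinarith [norm_nonneg x]

lemma le_pi2 (R : V 𝕜 →L[𝕜] V 𝕜) (x : V 𝕜) (hx : ‖x‖ ≤ 1) : ‖R x‖ ≤ pi2 R := by
  refine le_csInf ⟨2 * ‖R‖, by positivity, mem_of 𝕜 (by positivity) fun y => ?_⟩ ?_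
  · have h1 := pow_le_pow_left₀ (norm_nonneg _) (R.le_opNorm y) 2
    have h2 := nsq 𝕜 y
    nlinarith [sq_nonneg ‖R‖, mul_le_mul_of_nonneg_left h2 (sq_nonneg ‖R‖), sq_nonneg ‖y‖,
      mul_nonneg (sq_nonneg ‖R‖) (sq_nonneg ‖y‖)]
  · rintro C ⟨h0, hC⟩
    have := hC 1 fun _ => x
    simp only [Finset.univ_unique, Finset.sum_singleton, norm_nonneg, Real.sqrt_sq] at this
    nlinarith [weak_one (𝕜 := 𝕜) x]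

lemma pi2_smul_le (R : V 𝕜 →L[𝕜] V 𝕜) {C : ℝ} (hC : 0 ≤ C)
    (h : ∀ x, ‖R x‖ ^ 2 ≤ C ^ 2 / 2 * (‖x 0‖ ^ 2 + ‖x 1‖ ^ 2)) : pi2 R ≤ C :=
  csInf_le ⟨0, fun _ h => h.1⟩ ⟨hC, mem_of 𝕜 hC h⟩

noncomputable def pr (j : Fin 2) : V 𝕜 →L[𝕜] 𝕜 := ContinuousLinearMap.proj j

noncomputable def TT (c : 𝕜) : V 𝕜 →L[𝕜] V 𝕜 :=
  ContinuousLinearMap.pi ![c • (pr 𝕜 0 + pr 𝕜 1), c • (pr 𝕜 0 - pr 𝕜 1)]

lemma TT_bd (c : 𝕜) (x : V 𝕜) :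
    ‖TT 𝕜 c x‖ ^ 2 ≤ (2 * ‖c‖) ^ 2 / 2 * (‖x 0‖ ^ 2 + ‖x 1‖ ^ 2) := by
  have : ‖TT 𝕜 c x‖ ≤ ‖c‖ * (‖x 0‖ + ‖x 1‖) := by
    refine (pi_norm_le_iff_of_nonneg (by positivity)).mpr fun j => ?_
    fin_cases j
    · simpa [TT, pr, ← mul_add] using mul_le_mul_of_nonneg_left (norm_add_le (x 0) (x 1)) (norm_nonneg c)
    · simpa [TT, pr, ← mul_sub] using mul_le_mul_of_nonneg_left (norm_sub_le (x 0) (x 1)) (norm_nonneg c)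
  have h2 := pow_le_pow_left₀ (norm_nonneg _) this 2
  nlinarith [mul_nonneg (sq_nonneg ‖c‖) (sq_nonneg (‖x 0‖ - ‖x 1‖))]

def ev (x : V 𝕜) (j : Fin 2) : (V 𝕜 →L[𝕜] V 𝕜) →ₗ[𝕜] 𝕜 where
  toFun R := R x j
  map_add' _ _ := rfl
  map_smul' _ _ := rfl

lemma good (x : V 𝕜) (j : Fin 2) (hx : ‖x‖ ≤ 1) (h : ∀ c, TT 𝕜 c x j = c * 2) :
    IsLUB {s : ℝ | ∃ R : V 𝕜 →L[𝕜] V 𝕜, pi2 R ≤ 1 ∧ s = ‖ev 𝕜 x j R‖} 1 ∧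
      ev 𝕜 x j (TT 𝕜 1) = (pi2 (TT 𝕜 1) : 𝕜) := by
  have a1 : ∀ R : V 𝕜 →L[𝕜] V 𝕜, ‖ev 𝕜 x j R‖ ≤ pi2 R := fun R =>
    (norm_le_pi_norm (R x) j).trans (le_pi2 𝕜 R x hx)
  refine ⟨IsGreatest.isLUB ⟨⟨TT 𝕜 2⁻¹, ?_, ?_⟩, ?_⟩, ?_⟩
  · simpa using pi2_smul_le 𝕜 _ (by positivity) (TT_bd 𝕜 2⁻¹)
  · simp [ev, h]
  · rintro _ ⟨R, hR, rfl⟩
    exact (a1 R).trans hR
  · have b1 := a1 (TT 𝕜 1)
    have b2 := pi2_smul_le 𝕜 _ (by positivity) (TT_bd 𝕜 1)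
    simp [ev, h] at b1 b2 ⊢
    rw [le_antisymm b2 b1]; norm_cast

theorem result (𝕜 : Type) [RCLike 𝕜] :
    ∃ T : (Fin 2 → 𝕜) →L[𝕜] (Fin 2 → 𝕜), Function.Bijective T ∧ ¬ SmoothAtOp T := by
  refine ⟨TT 𝕜 1, ?_, fun h => ?_⟩
  · refine Function.bijective_iff_has_inverse.mpr ⟨TT 𝕜 2⁻¹, fun x => ?_, fun x => ?_⟩ <;>
    · ext j
      fin_cases j <;> simp [TT, pr] <;> ring
  · have h1 := good 𝕜 ![1, 1] 0 ((pi_norm_le_iff_of_nonneg zero_le_one).mpr fun j => by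
      fin_cases j <;> simp) (fun c => by simp [TT, pr]; ring)
    have h2 := good 𝕜 ![1, -1] 1 ((pi_norm_le_iff_of_nonneg zero_le_one).mpr fun j => by
      fin_cases j <;> simp) (fun c => by simp [TT, pr]; norm_num)
    have h3 := LinearMap.congr_fun (h.unique h1 h2) (ContinuousLinearMap.id 𝕜 _)
    simp only [ev, LinearMap.coe_mk, AddHom.coe_mk, ContinuousLinearMap.id_apply] at h3
    norm_num at h3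

end Pool.Agent.Results.MP_0c20fd_an.Counter
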